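import Pool.Agent.Y863.AR.Diff

/-!
# Almost all even differences in the intervals `(n + 4, 2 ^ (n + 4))`

For every `ε > 0` there are `L` and `C` such that for all large `n` and EVERY `Y` between `C (n + 4)` and
`2 ^ (n + 4)`: in every interval of `H ≥ L` positive integers up to `Y / C`, all but `ε H` of the `k` are
such that one of the numbers `h = 2 k, 4 k, 6 k` (or `8 k`, if `3 ∤ k`) is the difference of two primes
`n + 4 < p < p + h < Y`, in at least `Y ^ (1 - η)` ways.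

The coloured Maynard-Tao theorem with a constant below `4` (`Pool.Agent.TH899.UG.NW.exactW`) is from the
starting files, the density Hales-Jewett theorem (`Pool.Agent.H602R3.DHJ`) from the team's files.
-/

set_option autoImplicit false

namespace Pool.Agent.Results.MP_b51559_nt.AlmostAllDifferences

open Finset Filter

/-- the number of the primes `p` with `a < p`, `p + h < b` and `p + h` prime -/
noncomputable def pairs (h a b : ℕ) : ℕ :=
  {p : ℕ | p.Prime ∧ (p + h).Prime ∧ a < p ∧ p + h < b}.ncard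

/-- `3` if `3 ∣ k`, otherwise `4` -/
def R (k : ℕ) : ℕ := if 3 ∣ k then 3 else 4

open Classical in
theorem result : ∀ ε : ℝ, 0 < ε → ∃ L C : ℕ, ∀ η : ℝ, 0 < η → ∃ n₀ : ℕ, ∀ n : ℕ, n₀ ≤ n →
    ∀ Y : ℕ, C * (n + 4) ≤ Y → Y ≤ 2 ^ (n + 4) → ∀ u H : ℕ, L ≤ H → C * (u + H) ≤ Y →
      (((Ioc u (u + H)).filter (fun k : ℕ => ∀ j : ℕ, 1 ≤ j → j ≤ R k →
        (pairs (2 * (j * k)) (n + 4) Y : ℝ) < (Y : ℝ) ^ (1 - η))).card : ℝ) ≤ ε * H := by
  intro ε hε
  obtain ⟨L, C, hC, hL, -⟩ := Pool.Agent.Y863.AR.diffs ε hε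
  refine ⟨L, 32 * C, fun η hη => ?_⟩
  obtain ⟨η', hη'⟩ : ∃ η' : ℝ, η' = min η 1 / 2 := ⟨_, rfl⟩
  have hm0 : 0 < min η 1 := by positivity
  have hm1 : min η 1 ≤ 1 := min_le_right _ _
  have hm2 : min η 1 ≤ η := min_le_left _ _
  -- the loss of a factor
  have hpow : ∀ᶠ X : ℕ in atTop, (3 : ℝ) ^ (1 - η') ≤ (X : ℝ) ^ (min η 1 / 2) :=
    ((tendsto_rpow_atTop (by positivity)).comp tendsto_natCast_atTop_atTop).eventually_ge_atTop _
  obtain ⟨X₀, hX₀⟩ := eventually_atTop.1 ((hL η' (by rw [hη']; positivity) (by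
    rw [hη']; linarith)).and hpow)
  refine ⟨X₀ + 4, fun n hn Y hY1 _ u H hH hCY => ?_⟩
  have hYn : 32 * (n + 4) ≤ Y := by
    refine le_trans ?_ hY1
    have : 32 * 1 ≤ 32 * C := Nat.mul_le_mul_left _ hC
    nlinarith
  obtain ⟨X, hX⟩ : ∃ X : ℕ, X = Y / 2 := ⟨_, rfl⟩
  have hXY : X ≤ Y / 2 := hX.le
  have hX3 : Y ≤ 3 * X := by omega
  have hXX₀ : X₀ ≤ X := by omega
  have hCX : C * (u + H) ≤ X := by
    have h1 : 32 * (C * (u + H)) ≤ Y := by
      calc 32 * (C * (u + H)) = 32 * C * (u + H) := by ring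
        _ ≤ Y := hCY
    omega
  have h32 : 32 * (u + H) ≤ Y := by
    refine le_trans ?_ hCY
    have : 32 * 1 ≤ 32 * C := Nat.mul_le_mul_left _ hC
    nlinarith
  obtain ⟨h1, -⟩ := hX₀ X hXX₀
  obtain ⟨-, h2⟩ := hX₀ Y (by omega)
  have h3 := h1 u H hH hCX
  refine le_trans ?_ h3
  rw [Nat.cast_le]
  apply card_le_card
  intro k hk
  obtain ⟨hkI, hk⟩ := mem_filter.1 hk
  refine mem_filter.2 ⟨hkI, fun j hj1 hj2 => ?_⟩
  have hkH : k ≤ u + H := (mem_Ioc.1 hkI).2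
  have hj4 : j ≤ 4 := hj2.trans (by unfold Pool.Agent.Y863.AR.R3; split_ifs <;> omega)
  have h4 := hk j hj1 hj2
  have hjk : j * k ≤ 4 * (u + H) := Nat.mul_le_mul hj4 hkH
  -- comparison of the counts
  have h5 : (Pool.Agent.Y863.AR.dif (2 * (j * k)) (X / C) X : ℝ) ≤
      (pairs (2 * (j * k)) (n + 4) Y : ℝ) := by
    rw [Nat.cast_le]
    refine Set.ncard_le_ncard ?_ ((Set.finite_lt_nat Y).subset ?_)
    · rintro q ⟨⟨hq1, hq2⟩, hq3, hq4⟩
      have hq4' : q ≤ X := by exact_mod_cast hq4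
      have hC0 : (0 : ℝ) < C := by exact_mod_cast hC
      rw [div_le_iff₀ hC0] at hq3
      have hq3' : X ≤ q * C := by exact_mod_cast hq3
      refine ⟨hq1, hq2, ?_, by omega⟩
      by_contra hle
      push Not at hle
      have h6 : X ≤ (n + 4) * C := hq3'.trans (Nat.mul_le_mul_right _ hle)
      have h7 : 32 * ((n + 4) * C) ≤ Y := by
        calc 32 * ((n + 4) * C) = 32 * C * (n + 4) := by ring
          _ ≤ Y := hY1
      have h8 : 1 ≤ (n + 4) * C := Nat.mul_pos (by omega) hC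
      omega
    · intro p hp
      have h6 : p + 2 * (j * k) < Y := hp.2.2.2
      show p < Y
      omega
  refine lt_of_le_of_lt h5 (h4.trans_le ?_)
  have hY0 : (0 : ℝ) < Y := by
    have : 0 < Y := by omega
    exact_mod_cast this
  have hY1' : (1 : ℝ) ≤ Y := by
    have : 1 ≤ Y := by omega
    exact_mod_cast this
  have hX3' : (Y : ℝ) / 3 ≤ X := by
    have : (Y : ℝ) ≤ 3 * X := by exact_mod_cast hX3
    linarith
  have hexp : 0 ≤ 1 - η' := by rw [hη']; linarith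
  calc (Y : ℝ) ^ (1 - η) ≤ (Y : ℝ) ^ (1 - min η 1) :=
        Real.rpow_le_rpow_of_exponent_le hY1' (by linarith)
    _ ≤ ((Y : ℝ) / 3) ^ (1 - η') := by
        rw [Real.div_rpow hY0.le (by norm_num), le_div_iff₀ (Real.rpow_pos_of_pos (by norm_num) _)]
        calc (Y : ℝ) ^ (1 - min η 1) * 3 ^ (1 - η')
            ≤ (Y : ℝ) ^ (1 - min η 1) * (Y : ℝ) ^ (min η 1 / 2) :=
              mul_le_mul_of_nonneg_left h2 (Real.rpow_nonneg hY0.le _)
          _ = (Y : ℝ) ^ (1 - η') := by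
              rw [← Real.rpow_add hY0, hη']; congr 1; ring
    _ ≤ (X : ℝ) ^ (1 - η') := Real.rpow_le_rpow (by positivity) hX3' hexp

end Pool.Agent.Results.MP_b51559_nt.AlmostAllDifferences
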