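import Pool.Agent.Y879.PR.Tup
import Pool.Agent.Y879.GL.Pattern

set_option autoImplicit false

/-!
The ACTUAL primes `p` in the interval `(n + 4, 2 ^ (n + 4))` for which `p + 2` is almost prime: their exact
number for every large `n`, and the Poisson law of the almost prime twin pairs which follow them.
-/

namespace Pool.Agent.Results.MP_b51559_nt.PrimesWithAlmostTwin

open Finset Filter
open Pool.Agent.Y879.AP Pool.Agent.Y879.GL Pool.Agent.Y879.PR Pool.Agent.W123.RP Pool.Agent.H373R2.T7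
open Pool.Agent.TH464.PO Pool.Agent.TH464.PW Pool.Agent.W123.RU.Poly

/-- neither `6 x + 5` nor `6 x + 7` has a prime factor `p ≤ N ^ (1 / r)` -/
def Good (N r x : ℕ) : Prop :=
  ∀ p : ℕ, p.Prime → (p : ℝ) ≤ (N : ℝ) ^ (1 / (r : ℝ)) → ¬ p ∣ 6 * x + 5 ∧ ¬ p ∣ 6 * x + 7

/-- the density of the good numbers: the product of `1 - 2 / p` over the primes
`3 < p ≤ N ^ (1 / r)` -/
noncomputable def V (N r : ℕ) : ℝ :=
  ∏ p ∈ ((Icc 1 ⌊(N : ℝ) ^ (1 / (r : ℝ))⌋₊).filter Nat.Prime).filter (fun p => 3 < p), (1 - 2 / (p : ℝ))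

/-- the product of `(1 - 2 / p) / (1 - 1 / p)` over the primes `3 < p ≤ N ^ (1 / r)`, times `3` -/
noncomputable def W (N r : ℕ) : ℝ :=
  3 * ∏ p ∈ ((Icc 1 ⌊(N : ℝ) ^ (1 / (r : ℝ))⌋₊).filter Nat.Prime).filter (fun p => 3 < p),
    (1 - 2 / (p : ℝ)) / (1 - 1 / (p : ℝ))

open Classical in
/-- the good `x` in `(u, u + Y]` for which `6 x + b` is PRIME -/
noncomputable def Pr (N r b u Y : ℕ) : Finset ℕ :=
  (Ioc u (u + Y)).filter (fun x => (6 * x + b).Prime ∧ Good N r x)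

open Classical in
/-- the number of the good numbers in `(x, x + T]` -/
noncomputable def Next (N r T x : ℕ) : ℕ := ((Ioc x (x + T)).filter (Good N r)).card

/-- the Poisson weight of the set `B` -/
noncomputable def Poi (x : ℝ) (B : Finset ℕ) : ℝ := ∑ j ∈ B, Real.exp (-x) * x ^ j / j.factorial

open Classical in
/-- the PRIMES `p` with `n + 4 < p < 2 ^ (n + 4)` such that neither `p` nor `p + 2` has a prime factor
`q ≤ 2 ^ ((n + 4) / r)` -/
noncomputable def Tw (n r : ℕ) : Finset ℕ :=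
  (Ioo (n + 4) (2 ^ (n + 4))).filter (fun p => p.Prime ∧
    ∀ q : ℕ, q.Prime → (q : ℝ) ≤ ((2 ^ (n + 4) : ℕ) : ℝ) ^ (1 / (r : ℝ)) → ¬ q ∣ p ∧ ¬ q ∣ p + 2)

/-- the two forms -/
def B2 : Fin 2 → ℕ := ![5, 7]

lemma tup : Tup 6 B2 where
  sq := by
    rw [Nat.squarefree_iff_minSqFac]
    decide +kernel
  cop := by decide
  pr := by
    intro p hp h2
    have := hp.two_le
    have h3 : p = 2 := by omega
    rw [h3]
    norm_num
  inj := by decide
  spr := by decide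
  pos := by norm_num

lemma dvd_iff (p x : ℕ) : Q (tf 6 B2) p x ↔ p ∣ 6 * x + 5 ∨ p ∣ 6 * x + 7 := by
  rw [tf_Q, Fin.exists_fin_two]
  rfl

lemma good_iff (N r n : ℕ) : Good N r n ↔ Sf (Q (tf 6 B2)) ⌊(N : ℝ) ^ (1 / (r : ℝ))⌋₊ n := by
  have key : ∀ p : ℕ, (¬ Q (tf 6 B2) p n ↔ ¬ p ∣ 6 * n + 5 ∧ ¬ p ∣ 6 * n + 7) := by
    intro p
    rw [dvd_iff, not_or]
  unfold Good Sf
  constructor
  · intro h p hp
    obtain ⟨hp1, hp2⟩ := mem_pz.1 hp
    exact (key p).2 (h p hp2 ((Nat.le_floor_iff (by positivity)).1 hp1))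
  · intro h p hp hpr
    exact (key p).1 (h p (mem_pz.2 ⟨Nat.le_floor hpr, hp⟩))

lemma goodf (N r : ℕ) : Good N r = Sf (Q (tf 6 B2)) ⌊(N : ℝ) ^ (1 / (r : ℝ))⌋₊ :=
  funext fun m => propext (good_iff N r m)

lemma dvd6 (p : ℕ) (hp : p.Prime) (h : ¬ 3 < p) : p ∣ 6 := by
  have := hp.two_le
  have h2 : p = 2 ∨ p = 3 := by omega
  rcases h2 with rfl | rfl <;> norm_num

lemma nu2 (p : ℕ) (hp : p.Prime) (h : 3 < p) : nuB (Q (tf 6 B2)) p = 2 := by
  have hp6 : ¬ p ∣ 6 := by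
    intro h6
    have h7 : p ∣ 2 * 3 := by norm_num; exact h6
    rcases (hp.dvd_mul).1 h7 with h8 | h8
    · have := Nat.le_of_dvd (by norm_num) h8
      omega
    · have := Nat.le_of_dvd (by norm_num) h8
      omega
  refine tup.nu_eq p hp hp6 ?_
  have h2 : ¬ (p : ℤ) ∣ 2 := by
    intro h8
    have h9 : p ∣ 2 := by exact_mod_cast h8
    have := Nat.le_of_dvd (by norm_num) h9
    omega
  intro i j hij
  fin_cases i <;> fin_cases j
  · exact absurd rfl hij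
  · change ¬ (p : ℤ) ∣ ((5 : ℕ) : ℤ) - ((7 : ℕ) : ℤ)
    rw [show ((5 : ℕ) : ℤ) - ((7 : ℕ) : ℤ) = -2 by norm_num, dvd_neg]
    exact h2
  · change ¬ (p : ℤ) ∣ ((7 : ℕ) : ℤ) - ((5 : ℕ) : ℤ)
    rw [show ((7 : ℕ) : ℤ) - ((5 : ℕ) : ℤ) = 2 by norm_num]
    exact h2
  · exact absurd rfl hij

lemma V_eq (N r : ℕ) : V N r = Vq (Q (tf 6 B2)) ⌊(N : ℝ) ^ (1 / (r : ℝ))⌋₊ := by
  unfold V Vq
  rw [Finset.prod_filter]
  apply Finset.prod_congr rfl
  intro p hp
  have hpp := (mem_pz.1 hp).2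
  by_cases h : 3 < p
  · rw [if_pos h, nu2 p hpp h]
    norm_num
  · rw [if_neg h, tup.nu_zero p hpp (dvd6 p hpp h)]
    norm_num

lemma W_eq (N r : ℕ) (h3 : 3 ≤ ⌊(N : ℝ) ^ (1 / (r : ℝ))⌋₊) :
    W N r = V N r / Vz ⌊(N : ℝ) ^ (1 / (r : ℝ))⌋₊ := by
  have h1 : V N r = ∏ p ∈ pz ⌊(N : ℝ) ^ (1 / (r : ℝ))⌋₊, (if 3 < p then (1 - 2 / (p : ℝ)) else 1) := by
    unfold V pz
    rw [Finset.prod_filter]
  rw [h1]
  unfold W Vz
  rw [← Finset.prod_div_distrib]
  have h2 : (pz ⌊(N : ℝ) ^ (1 / (r : ℝ))⌋₊).filter (fun p => ¬ 3 < p) = {2, 3} := by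
    ext p
    simp only [Finset.mem_filter, mem_pz, Finset.mem_insert, Finset.mem_singleton]
    constructor
    · rintro ⟨⟨h4, h5⟩, h6⟩
      have := h5.two_le
      omega
    · rintro (rfl | rfl)
      · exact ⟨⟨by omega, Nat.prime_two⟩, by norm_num⟩
      · exact ⟨⟨h3, Nat.prime_three⟩, by norm_num⟩
  rw [← Finset.prod_filter_mul_prod_filter_not (pz ⌊(N : ℝ) ^ (1 / (r : ℝ))⌋₊) (fun p => 3 < p), h2]
  have h7 : ∏ p ∈ ({2, 3} : Finset ℕ), (if 3 < p then (1 - 2 / (p : ℝ)) else 1) / (1 - 1 / (p : ℝ)) = 3 := by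
    rw [Finset.prod_insert (by norm_num), Finset.prod_singleton]
    norm_num
  rw [h7, mul_comm]
  congr 1
  apply Finset.prod_congr rfl
  intro p hp
  rw [if_pos (Finset.mem_filter.1 hp).2]

lemma pr_eq (N r b u Y : ℕ) : Pr N r b u Y =
    Om 6 b (Q (tf 6 B2)) ⌊(N : ℝ) ^ (1 / (r : ℝ))⌋₊ u Y := by
  unfold Pr Om
  ext n
  simp only [Finset.mem_filter, good_iff]

lemma form (p : ℕ) (h2 : ¬ 2 ∣ p) (h3 : ¬ 3 ∣ p) (h4 : ¬ 3 ∣ p + 2) : p % 6 = 5 := by
  have h8 : p % 6 < 6 := Nat.mod_lt _ (by norm_num)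
  interval_cases h9 : p % 6 <;> omega

lemma tw_card (n r : ℕ) (hn : 1 ≤ n) (hz : (3 : ℝ) ≤ ((2 ^ (n + 4) : ℕ) : ℝ) ^ (1 / (r : ℝ))) :
    (Tw n r).card = (Pr (2 ^ (n + 4)) r 5 ((n + 5) / 6 - 1)
      ((2 ^ (n + 4) / 6 - 1) - ((n + 5) / 6 - 1))).card := by
  classical
  have hbig : n + 5 < 2 ^ (n + 4) := by
    have h1 : n < 2 ^ n := Nat.lt_two_pow_self
    have h2 : 2 ^ (n + 4) = 16 * 2 ^ n := by ring
    omega
  have hu : (n + 5) / 6 - 1 ≤ 2 ^ (n + 4) / 6 - 1 := by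
    have : (n + 5) / 6 ≤ 2 ^ (n + 4) / 6 := Nat.div_le_div_right hbig.le
    omega
  have himg : Tw n r = (Pr (2 ^ (n + 4)) r 5 ((n + 5) / 6 - 1)
      ((2 ^ (n + 4) / 6 - 1) - ((n + 5) / 6 - 1))).image (fun x => 6 * x + 5) := by
    ext p
    simp only [Tw, Pr, Finset.mem_filter, Finset.mem_Ioo, Finset.mem_image, Finset.mem_Ioc]
    rw [Nat.add_sub_cancel' hu]
    constructor
    · rintro ⟨⟨h1, h2⟩, h3, h4⟩
      have e2 := h4 2 Nat.prime_two (by rw [Nat.cast_ofNat]; linarith)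
      have e3 := h4 3 Nat.prime_three (by rw [Nat.cast_ofNat]; linarith)
      have h5 := form p e2.1 e3.1 e3.2
      refine ⟨p / 6, ⟨⟨by omega, by omega⟩, ?_, ?_⟩, by omega⟩
      · rwa [show 6 * (p / 6) + 5 = p by omega]
      · intro q hq hqz
        have := h4 q hq hqz
        rwa [show 6 * (p / 6) + 5 = p by omega, show 6 * (p / 6) + 7 = p + 2 by omega]
    · rintro ⟨x, ⟨⟨h1, h2⟩, h3, h4⟩, rfl⟩
      exact ⟨⟨by omega, by omega⟩, h3, fun q hq hqz => h4 q hq hqz⟩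
  rw [himg, Finset.card_image_of_injective]
  intro a b hab
  simpa using hab

lemma sq_le_pow (k : ℕ) (hk : 4 ≤ k) : k ^ 2 ≤ 2 ^ k := by
  induction k, hk using Nat.le_induction with
  | base => norm_num
  | succ m hm ih =>
    have h1 : 2 ^ (m + 1) = 2 * 2 ^ m := by ring
    nlinarith

/-- **Primes `p` with `p + 2` almost prime, in all intervals, and in `(n + 4, 2 ^ (n + 4))`.** For all
`θ > 0`, `0 < δ ≤ 1`, `0 < ε ≤ 1` and `x₀` there is `r₀` such that for every `r ≥ r₀`: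

(a) for all large `N`: (1) if `x` is good and `6 x + 7 ≤ N` then `6 x + 5` and `6 x + 7` have at most `r`
prime factors; (2) each twin prime pair `p, p + 2` with `p > 3`, `p > N ^ (1 / r)` is
`6 x + 5`, `6 x + 7` with a good `x`; (3) if `X ≥ N ^ θ`, `Y ≥ δ X` and `u + Y ≤ X`, then for `b = 5` and
`b = 7` the number of the good `x` in `(u, u + Y]` with `6 x + b` PRIME is `(1 + η) Y W / log X`,
`|η| ≤ ε`, and at these `x` the number of the good numbers in `(x, x + T]` has the Poisson law of mean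
`T V`, up to `ε`, for all `T` with `T V ≤ x₀`;

(b) for all large `n`, with `N = 2 ^ (n + 4)`: for all `p ∈ Tw n r` the number `p + 2` has at most `r`
prime factors, and the number of elements of `Tw n r` is `(1 + η) (N / 6) W / log N`, `|η| ≤ ε`. -/
theorem result (θ δ x₀ ε : ℝ) (hθ : 0 < θ) (hδ : 0 < δ) (hδ1 : δ ≤ 1) (hε : 0 < ε) (hε1 : ε ≤ 1) :
    ∃ r₀ : ℕ, ∀ r : ℕ, r₀ ≤ r → ∃ N₀ : ℕ,
      (∀ N : ℕ, N₀ ≤ N →
        (∀ x : ℕ, 6 * x + 7 ≤ N → Good N r x →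
          (6 * x + 5).primeFactorsList.length ≤ r ∧ (6 * x + 7).primeFactorsList.length ≤ r) ∧
        (∀ p : ℕ, p.Prime → (p + 2).Prime → 3 < p → (N : ℝ) ^ (1 / (r : ℝ)) < p →
          ∃ x : ℕ, p = 6 * x + 5 ∧ Good N r x) ∧
        0 < W N r ∧ ∀ b : ℕ, b = 5 ∨ b = 7 → ∀ X u Y : ℕ, (N : ℝ) ^ θ ≤ X → δ * X ≤ Y → u + Y ≤ X →
          |((Pr N r b u Y).card : ℝ) * Real.log X - Y * W N r| ≤ ε * (Y * W N r) ∧
          ∀ T : ℕ, T * V N r ≤ x₀ → ∀ B : Finset ℕ,
            |(((Pr N r b u Y).filter (fun x => Next N r T x ∈ B)).card : ℝ) -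
              (Pr N r b u Y).card * Poi (T * V N r) B| ≤ ε * (Pr N r b u Y).card) ∧
      ∀ n : ℕ, N₀ ≤ n →
        (∀ p ∈ Tw n r, (p + 2).primeFactorsList.length ≤ r) ∧
        |((Tw n r).card : ℝ) * Real.log ((2 ^ (n + 4) : ℕ) : ℝ) -
          ((2 ^ (n + 4) : ℕ) : ℝ) / 6 * W (2 ^ (n + 4)) r| ≤
          ε * (((2 ^ (n + 4) : ℕ) : ℝ) / 6 * W (2 ^ (n + 4)) r) := by
  obtain ⟨r1, hr12, hlaw⟩ := tup_prime tup θ δ hθ hδ hδ1 x₀ ε hε hε1
  obtain ⟨r2, hr22, hwin⟩ := tup_prime tup (1 / 2) (1 / 2) (by norm_num) (by norm_num) (by norm_num) x₀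
    (ε / 4) (by positivity) (by linarith)
  refine ⟨max r1 r2, ?_⟩
  intro r hr
  have hr1' : r1 ≤ r := (le_max_left _ _).trans hr
  have hr2' : r2 ≤ r := (le_max_right _ _).trans hr
  have hr2 : 2 ≤ r := hr22.trans hr2'
  have hrr : (2 : ℝ) ≤ r := by exact_mod_cast hr2
  have hlog : ∀ᶠ N : ℕ in atTop, 16 * Real.log 12 / ε ≤ Real.log N :=
    (Real.tendsto_log_atTop.comp tendsto_natCast_atTop_atTop).eventually_ge_atTop _
  obtain ⟨N0, hN0⟩ := eventually_atTop.1 ((hlaw r hr1').and ((hwin r hr2').and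
    ((Pool.Agent.Y879.GL.level_ok r hr2).and hlog)))
  refine ⟨max N0 (max 1000 ⌈96 / ε⌉₊), ?_⟩
  have hzpow : ∀ N : ℕ, N0 ≤ N → 1000 ≤ N → (3 : ℝ) ≤ (N : ℝ) ^ (1 / (r : ℝ)) ∧
      ((N : ℝ) ^ (1 / (r : ℝ))) ^ r = N ∧ 0 < W N r ∧
      W N r = V N r / Vz ⌊(N : ℝ) ^ (1 / (r : ℝ))⌋₊ := by
    intro N hN hN1000
    obtain ⟨h1, h2, h3, h4⟩ := hN0 N hN
    have hN1r : (1000 : ℝ) ≤ N := by exact_mod_cast hN1000
    have hW := W_eq N r h3.1
    refine ⟨?_, ?_, ?_, hW⟩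
    · have h4 : ((3 : ℕ) : ℝ) ≤ (N : ℝ) ^ (1 / (r : ℝ)) := (Nat.le_floor_iff (by positivity)).1 h3.1
      exact_mod_cast h4
    · rw [← Real.rpow_natCast, ← Real.rpow_mul (by linarith), one_div, inv_mul_cancel₀ (by linarith),
        Real.rpow_one]
    · rw [hW, V_eq]
      exact div_pos h1.1 (Pool.Agent.Y879.PR.Vz_pos _)
  constructor
  · intro N hN
    have hNN0 : N0 ≤ N := (le_max_left _ _).trans hN
    have hN1000 : 1000 ≤ N := ((le_max_left _ _).trans (le_max_right _ _)).trans hN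
    obtain ⟨h1, h2, h3, h4⟩ := hN0 N hNN0
    obtain ⟨hz3, hpow, hW0, hW⟩ := hzpow N hNN0 hN1000
    refine ⟨?_, ?_, hW0, ?_⟩
    · intro x hx hg
      have hb : ∀ m : ℕ, m ≠ 0 → m ≤ N →
          (∀ p : ℕ, p.Prime → (p : ℝ) ≤ (N : ℝ) ^ (1 / (r : ℝ)) → ¬ p ∣ m) →
          m.primeFactorsList.length ≤ r := by
        intro m hm0 hmN hm
        refine few_of_rough ((N : ℝ) ^ (1 / (r : ℝ))) (by linarith) m r hm0 ?_ ?_
        · rw [hpow]
          exact_mod_cast hmN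
        · intro p hp hpN
          by_contra hcon
          rw [not_lt] at hcon
          exact hm p hp hcon hpN
      exact ⟨hb _ (by omega) (by omega) (fun p hp hpz => (hg p hp hpz).1),
        hb _ (by omega) hx (fun p hp hpz => (hg p hp hpz).2)⟩
    · intro p hp hp2 hp3 hpz
      have h2 : ¬ 2 ∣ p := by
        intro h
        have := (Nat.prime_dvd_prime_iff_eq Nat.prime_two hp).1 h
        omega
      have h3' : ¬ 3 ∣ p := by
        intro h
        have := (Nat.prime_dvd_prime_iff_eq Nat.prime_three hp).1 h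
        omega
      have h4' : ¬ 3 ∣ p + 2 := by
        intro h
        have := (Nat.prime_dvd_prime_iff_eq Nat.prime_three hp2).1 h
        omega
      have h5 := form p h2 h3' h4'
      refine ⟨p / 6, by omega, ?_⟩
      intro q hq hqz
      rw [show 6 * (p / 6) + 5 = p by omega, show 6 * (p / 6) + 7 = p + 2 by omega]
      constructor
      · intro hd
        rw [(Nat.prime_dvd_prime_iff_eq hq hp).1 hd] at hqz
        linarith
      · intro hd
        rw [(Nat.prime_dvd_prime_iff_eq hq hp2).1 hd] at hqz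
        push_cast at hqz
        linarith
    · intro b hb X u Y hX hY huY
      have key : ∀ i : Fin 2, ∀ b : ℕ, B2 i = b →
          |((Pr N r b u Y).card : ℝ) * Real.log X - Y * W N r| ≤ ε * (Y * W N r) ∧
          ∀ T : ℕ, T * V N r ≤ x₀ → ∀ B : Finset ℕ,
            |(((Pr N r b u Y).filter (fun x => Next N r T x ∈ B)).card : ℝ) -
              (Pr N r b u Y).card * Poi (T * V N r) B| ≤ ε * (Pr N r b u Y).card := by
        intro i b hib
        have h5 := h1.2 i X hX u Y hY huY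
        rw [hib, ← pr_eq, ← V_eq, ← hW] at h5
        refine ⟨h5.1, ?_⟩
        intro T hT B
        have h6 := h5.2 T hT B
        rw [← goodf] at h6
        exact h6
      rcases hb with rfl | rfl
      · exact key 0 5 rfl
      · exact key 1 7 rfl
  · intro n hn
    have hn1000 : 1000 ≤ n := ((le_max_left _ _).trans (le_max_right _ _)).trans hn
    have hnε : 96 / ε ≤ n := by
      have h5 : ⌈96 / ε⌉₊ ≤ n := ((le_max_right _ _).trans (le_max_right _ _)).trans hn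
      exact (Nat.le_ceil _).trans (by exact_mod_cast h5)
    have hnN : n ≤ 2 ^ (n + 4) := by
      have h1 : n < 2 ^ n := Nat.lt_two_pow_self
      have h2 : 2 ^ (n + 4) = 16 * 2 ^ n := by ring
      omega
    have hcard := tw_card n r (by omega)
      (hzpow (2 ^ (n + 4)) (((le_max_left _ _).trans hn).trans hnN) (hn1000.trans hnN)).1
    have hsq := sq_le_pow (n + 4) (by omega)
    obtain ⟨N, hNdef⟩ : ∃ N : ℕ, N = 2 ^ (n + 4) := ⟨_, rfl⟩
    have hTw : ∀ p ∈ Tw n r, (p + 2).primeFactorsList.length ≤ r := by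
      intro p hp
      have hzp := hzpow (2 ^ (n + 4)) (((le_max_left _ _).trans hn).trans hnN) (hn1000.trans hnN)
      simp only [Tw, Finset.mem_filter, Finset.mem_Ioo] at hp
      obtain ⟨⟨h1, h2⟩, h3, h4⟩ := hp
      refine few_of_rough (((2 ^ (n + 4) : ℕ) : ℝ) ^ (1 / (r : ℝ))) (by linarith [hzp.1]) (p + 2) r
        (by omega) ?_ ?_
      · rw [hzp.2.1]
        have h5 : p + 2 ≤ 2 ^ (n + 4) := by
          by_contra hcon
          have h6 : p + 1 = 2 ^ (n + 4) := by omega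
          have e3 := h4 3 Nat.prime_three (by rw [Nat.cast_ofNat]; linarith [hzp.1])
          have e2 := h4 2 Nat.prime_two (by rw [Nat.cast_ofNat]; linarith [hzp.1])
          have h7 := form p e2.1 e3.1 e3.2
          have h8 : 3 ∣ 2 ^ (n + 4) := by
            rw [← h6]
            omega
          have h9 := Nat.prime_three.dvd_of_dvd_pow h8
          omega
        exact_mod_cast h5
      · intro q hq hqp
        by_contra hcon
        rw [not_lt] at hcon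
        exact (h4 q hq hcon).2 hqp
    refine ⟨hTw, ?_⟩
    rw [hcard]
    rw [← hNdef] at hnN hsq ⊢
    obtain ⟨h1, h2, h3, h4⟩ := hN0 N (((le_max_left _ _).trans hn).trans hnN)
    obtain ⟨hz3, hpow, hW0, hW⟩ := hzpow N (((le_max_left _ _).trans hn).trans hnN) (hn1000.trans hnN)
    have hN1000 : 1000 ≤ N := hn1000.trans hnN
    have hNr : (1000 : ℝ) ≤ N := by exact_mod_cast hN1000
    obtain ⟨X, hX⟩ : ∃ X : ℕ, X = N / 6 - 1 := ⟨_, rfl⟩
    obtain ⟨u, hu⟩ : ∃ u : ℕ, u = (n + 5) / 6 - 1 := ⟨_, rfl⟩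
    have hNn : 96 * (n + 4) ≤ N * 1 := by nlinarith
    rw [← hX, ← hu]
    have huX : u ≤ X := by omega
    have hX12 : N ≤ 12 * X := by omega
    have hXN : X ≤ N := by omega
    have hX12r : (N : ℝ) ≤ 12 * X := by exact_mod_cast hX12
    have hXNr : (X : ℝ) ≤ N := by exact_mod_cast hXN
    have hX0 : (0 : ℝ) < X := by linarith
    have hY2 : X ≤ 2 * (X - u) := by omega
    have hY2r : (1 / 2 : ℝ) * X ≤ ((X - u : ℕ) : ℝ) := by
      have : (X : ℝ) ≤ 2 * ((X - u : ℕ) : ℝ) := by exact_mod_cast hY2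
      linarith
    have hXθ : (N : ℝ) ^ (1 / 2 : ℝ) ≤ X := by
      rw [← Real.sqrt_eq_rpow]
      have h5 : Real.sqrt N * Real.sqrt N = N := Real.mul_self_sqrt (by linarith)
      have h6 : 12 ≤ Real.sqrt N := Real.le_sqrt_of_sq_le (by linarith)
      nlinarith
    have h5 := (h2.2 0 X hXθ u (X - u) hY2r (by omega)).1
    rw [show B2 0 = 5 from rfl, ← pr_eq, ← V_eq, ← hW] at h5
    have hlogX : Real.log X ≤ Real.log N := Real.log_le_log hX0 hXNr
    have hlogX2 : Real.log N ≤ Real.log 12 + Real.log X := by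
      rw [← Real.log_mul (by norm_num) hX0.ne']
      exact Real.log_le_log (by linarith) hX12r
    have hlog12 : 0 < Real.log 12 := Real.log_pos (by norm_num)
    have hlε : Real.log 12 ≤ ε / 16 * Real.log N := by
      rw [div_le_iff₀ hε] at h4
      linarith
    have hYd : |((X - u : ℕ) : ℝ) - N / 6| ≤ ε / 16 * (N / 6) := by
      have e1 : ((X - u : ℕ) : ℝ) ≤ N / 6 := by
        have : 6 * (X - u) ≤ N := by omega
        have : (6 : ℝ) * ((X - u : ℕ) : ℝ) ≤ N := by exact_mod_cast this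
        linarith
      have e2 : (N : ℝ) / 6 - (n + 4) ≤ ((X - u : ℕ) : ℝ) := by
        have : N ≤ 6 * (X - u) + 6 * (n + 4) := by omega
        have : (N : ℝ) ≤ 6 * ((X - u : ℕ) : ℝ) + 6 * (n + 4) := by exact_mod_cast this
        linarith
      have e3 : ((n : ℝ) + 4) ≤ ε / 16 * (N / 6) := by
        have h6 : ((n : ℝ) + 4) ^ 2 ≤ N := by exact_mod_cast hsq
        rw [div_le_iff₀ hε] at hnε
        have h7 : 96 ≤ ε * ((n : ℝ) + 4) := by nlinarith
        have h8 : 96 * ((n : ℝ) + 4) ≤ ε * (((n : ℝ) + 4) ^ 2) := by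
          calc 96 * ((n : ℝ) + 4) ≤ (ε * ((n : ℝ) + 4)) * ((n : ℝ) + 4) :=
                mul_le_mul_of_nonneg_right h7 (by positivity)
            _ = _ := by ring
        have h9 : ε * (((n : ℝ) + 4) ^ 2) ≤ ε * N := mul_le_mul_of_nonneg_left h6 hε.le
        linarith
      rw [abs_le]
      constructor <;> linarith
    exact conv _ (Real.log X) (Real.log N) _ (N / 6) (W N r) ε hε hε1 (Nat.cast_nonneg _)
      (by linarith [Real.log_nonneg (show (1 : ℝ) ≤ N by linarith)]) (by positivity) hW0.le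
      (by
        have e : ε / 4 * (((X - u : ℕ) : ℝ) * W N r) = ε / 4 * (((X - u : ℕ) : ℝ) * W N r) := rfl
        exact h5) (by
        rw [abs_le]
        constructor <;> linarith) hYd

end Pool.Agent.Results.MP_b51559_nt.PrimesWithAlmostTwin
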