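import Pool.Agent.Y816.PD.UniL

set_option autoImplicit false

/-!
# Twin almost primes in the interval `(n + 4, 2 ^ (n + 4))` with restricted binary digits
-/

namespace Pool.Agent.Results.MP_b51559_nt.RestrictedDigits

open Finset Filter
open Pool.Agent.Y816.PD (ND NA)

/-- All prime factors of `p` and of `p + 2` are larger than `p ^ (1 / r)`. -/
def R (r : ℕ) : Set ℕ := {p | ∀ l : ℕ, l.Prime → (l ∣ p ∨ l ∣ p + 2) → p < l ^ r}

/-- The `p` with `n + 4 < p < 2 ^ (n + 4)` such that all prime factors of `p` and of `p + 2` are larger than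
`2 ^ ((n + 4) / r)` and these numbers have at most `r` prime factors. -/
def P (n r : ℕ) : Set ℕ := {p | (n + 4 < p ∧ p < 2 ^ (n + 4)) ∧
  (∀ l : ℕ, l.Prime → (l ∣ p ∨ l ∣ p + 2) → 2 ^ (n + 4) < l ^ r) ∧
  p.primeFactorsList.length ≤ r ∧ (p + 2).primeFactorsList.length ≤ r}

/-- **Twin almost primes in the interval `(n + 4, 2 ^ (n + 4))` with restricted binary digits.** -/
theorem result :
    ∃ c : ℝ, 0 < c ∧ ∃ r₀ : ℕ, 2 ≤ r₀ ∧ ∀ r : ℕ, r₀ ≤ r →
      (∀ p : ℕ, p.Prime → (p + 2).Prime → p ∈ R r) ∧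
      ∃ κ C : ℝ, 0 < κ ∧ 0 < C ∧ ∀ᶠ n : ℕ in atTop, ∀ A : ℕ → Finset ℕ,
        (∀ i < n + 4, A i ⊆ range 2) →
        (2 : ℝ) ^ (n + 4) ≤ Real.exp (c * ((n + 4 : ℕ) : ℝ)) * NA (n + 4) A →
        (1 ∈ A 0 → 1 ∈ A (n + 3) → κ * NA (n + 4) A / ((n + 4 : ℕ) : ℝ) ^ 2 ≤ ND 2 (n + 4) A (P n r)) ∧
        (ND 2 (n + 4) A (R r) : ℝ) ≤ C * NA (n + 4) A / ((n + 4 : ℕ) : ℝ) ^ 2 := by
  obtain ⟨c, hc, r₀, hr₀, h⟩ := Pool.Agent.Y816.PD.uni_shift {0, 2}
    (Pool.Agent.Y816.PD.adm2 {0, 2} 3 11 (by decide) (by decide) (by decide)) 2 (by decide) (by norm_num) 1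
  refine ⟨c, hc, r₀, hr₀, fun r hr => ⟨fun p h1 h2 l hl hd => ?_, ?_⟩⟩
  · have h2r : 2 ≤ r := hr₀.trans hr
    refine Pool.Agent.Y816.PD.lt_pow_of_le hl ?_ h2r
    rcases hd with hd | hd
    · exact ((Nat.prime_dvd_prime_iff_eq hl h1).1 hd).ge
    · rw [(Nat.prime_dvd_prime_iff_eq hl h2).1 hd]
      omega
  · obtain ⟨κ, C, hκ, hC, h1⟩ := h r hr 2 le_rfl
    refine ⟨κ, C, hκ, hC, ?_⟩
    filter_upwards [(tendsto_add_atTop_nat 4).eventually h1] with n hn A hA hprod
    obtain ⟨h2, h3⟩ := hn 0 (Nat.zero_le _) A hA (by push_cast at hprod ⊢; exact hprod)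
    have htop : n + 4 - 1 = n + 3 := by omega
    rw [htop] at h2
    constructor
    · intro ha0 ha1
      refine (h2 ⟨1, ha0, ?_⟩ ⟨1, ha1, one_ne_zero⟩).trans ?_
      · intro h hh
        simp only [mem_insert, mem_singleton] at hh
        rcases hh with rfl | rfl <;> decide
      · apply Nat.cast_le.2
        apply Pool.Agent.Y816.PD.ND_mono'
        intro j hjK hj
        obtain ⟨hj1, hj2⟩ := hj
        have h5 := hj2 0 (by simp)
        have h6 := hj2 2 (by simp)
        simp only [zero_add, add_zero] at h5 h6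
        have h7 : n + 4 < 2 ^ (n + 3) := by
          have : ∀ m : ℕ, m + 4 < 2 ^ (m + 3) := by
            intro m
            induction m with
            | zero => norm_num
            | succ m ih =>
              have : 2 ^ (m + 1 + 3) = 2 * 2 ^ (m + 3) := by ring
              omega
          exact this n
        refine ⟨⟨lt_of_lt_of_le h7 hj1, hjK⟩, fun p hp hd => ?_, h5.2, h6.2⟩
        rcases hd with hd | hd
        · exact h5.1 p hp hd
        · exact h6.1 p hp hd
    · refine le_trans ?_ h3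
      apply Nat.cast_le.2
      apply Pool.Agent.Y816.PD.ND_mono
      intro j hj h hh p hp hd
      simp only [mem_insert, mem_singleton] at hh
      rcases hh with rfl | rfl
      · exact hj p hp (Or.inl (by simpa using hd))
      · exact hj p hp (Or.inr (by simpa using hd))

end Pool.Agent.Results.MP_b51559_nt.RestrictedDigits
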